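import Mathlib
import Pool.Agent.H499.SM.Stm

set_option autoImplicit false
set_option linter.unusedVariables false

namespace Pool.Agent.H122.SM

open Filter Topology Pool.Agent.H499.SM

variable {F : Type} [NontriviallyNormedField F] [ProperSpace F] {V : Type} [NormedAddCommGroup V]
  [NormedSpace F V]

/-- the nearest point of a finite dimensional subspace -/
theorem near (U : Submodule F V) [FiniteDimensional F U] (x : V) :
    ∃ u ∈ U, ∀ y ∈ U, ‖x - u‖ ≤ ‖x - u + y‖ := by
  haveI : ProperSpace U := FiniteDimensional.proper F U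
  have hc : Continuous fun y : U => ‖x - (y : V)‖ := by fun_prop
  have ht : Tendsto (fun y : U => ‖x - (y : V)‖) (cocompact U) atTop := by
    have h1 : Tendsto (fun y : U => ‖y‖ - ‖x‖) (cocompact U) atTop :=
      tendsto_atTop_add_const_right _ _ tendsto_norm_cocompact_atTop
    refine tendsto_atTop_mono (fun y => ?_) h1
    have h2 : ‖(y : V)‖ - ‖x‖ ≤ ‖(y : V) - x‖ := norm_sub_norm_le _ _
    rw [norm_sub_rev] at h2
    exact h2
  obtain ⟨u, hu⟩ := hc.exists_forall_le ht
  refine ⟨u, u.2, fun y hy => ?_⟩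
  have h3 := hu (u - ⟨y, hy⟩)
  have h4 : x - ((u - ⟨y, hy⟩ : U) : V) = x - (u : V) + y := by
    rw [Submodule.coe_sub]
    simp only [sub_sub_eq_add_sub]
    abel
  rw [h4] at h3
  exact h3

/-- scaling into the annulus -/
theorem scale (ϖ : F) (h0 : 0 < ‖ϖ‖) (h1 : ‖ϖ‖ < 1) (w : V) (hw : w ≠ 0) :
    ∃ s : F, s ≠ 0 ∧ ‖ϖ‖ < ‖s • w‖ ∧ ‖s • w‖ ≤ 1 := by
  have hwp : 0 < ‖w‖ := norm_pos_iff.2 hw
  have hϖ : ϖ ≠ 0 := norm_pos_iff.1 h0
  obtain ⟨n, hn1, hn2⟩ := exists_mem_Ioc_zpow hwp ((one_lt_inv₀ h0).2 h1)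
  refine ⟨ϖ ^ (n + 1), zpow_ne_zero _ hϖ, ?_, ?_⟩
  · rw [norm_smul, norm_zpow]
    have h2 : 0 < ‖ϖ‖ ^ (n + 1) := zpow_pos h0 _
    have h3 : ‖ϖ‖ ^ (n + 1) * (‖ϖ‖⁻¹) ^ n < ‖ϖ‖ ^ (n + 1) * ‖w‖ := mul_lt_mul_of_pos_left hn1 h2
    have h4 : ‖ϖ‖ ^ (n + 1) * (‖ϖ‖⁻¹) ^ n = ‖ϖ‖ := by
      rw [zpow_add_one₀ h0.ne', inv_zpow, mul_comm (‖ϖ‖ ^ n), mul_assoc,
        mul_inv_cancel₀ (zpow_pos h0 _).ne', mul_one]
    rw [h4] at h3
    exact h3
  · rw [norm_smul, norm_zpow]
    have h2 : 0 < ‖ϖ‖ ^ (n + 1) := zpow_pos h0 _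
    have h3 : ‖ϖ‖ ^ (n + 1) * ‖w‖ ≤ ‖ϖ‖ ^ (n + 1) * (‖ϖ‖⁻¹) ^ (n + 1) :=
      mul_le_mul_of_nonneg_left hn2 h2.le
    have h4 : ‖ϖ‖ ^ (n + 1) * (‖ϖ‖⁻¹) ^ (n + 1) = 1 := by
      rw [inv_zpow, mul_inv_cancel₀ h2.ne']
    rw [h4] at h3
    exact h3

theorem step [IsUltrametricDist V] (U : Submodule F V) [FiniteDimensional F U] (x : V)
    (hx : x ∉ U) (ϖ : F) (h0 : 0 < ‖ϖ‖) (h1 : ‖ϖ‖ < 1) :
    ∃ (s : F) (u : V), s ≠ 0 ∧ u ∈ U ∧ ‖ϖ‖ < ‖s • (x - u)‖ ∧ ‖s • (x - u)‖ ≤ 1 ∧
      ∀ (a : F), ∀ y ∈ U, ‖a • (s • (x - u))‖ ≤ ‖a • (s • (x - u)) + y‖ ∧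
        ‖y‖ ≤ ‖a • (s • (x - u)) + y‖ := by
  obtain ⟨u, hu, hmin⟩ := near U x
  have hne : x - u ≠ 0 := fun h => hx (by rw [sub_eq_zero.1 h]; exact hu)
  obtain ⟨s, hs, hs1, hs2⟩ := scale ϖ h0 h1 (x - u) hne
  refine ⟨s, u, hs, hu, hs1, hs2, fun a y hy => ?_⟩
  have hA : ‖a • (s • (x - u))‖ ≤ ‖a • (s • (x - u)) + y‖ := by
    by_cases ha : a = 0
    · rw [ha, zero_smul, norm_zero]
      exact norm_nonneg _
    · have has : a * s ≠ 0 := mul_ne_zero ha hs
      have h2 := hmin ((a * s)⁻¹ • y) (U.smul_mem _ hy)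
      have h3 : a • (s • (x - u)) + y = (a * s) • (x - u + (a * s)⁻¹ • y) := by
        rw [smul_add, smul_smul, smul_smul, mul_inv_cancel₀ has, one_smul]
      rw [h3, smul_smul, norm_smul, norm_smul]
      exact mul_le_mul_of_nonneg_left h2 (norm_nonneg _)
  refine ⟨hA, ?_⟩
  have h4 : y = (a • (s • (x - u)) + y) + -(a • (s • (x - u))) := by abel
  calc ‖y‖ = ‖(a • (s • (x - u)) + y) + -(a • (s • (x - u)))‖ := by rw [← h4]
    _ ≤ max ‖a • (s • (x - u)) + y‖ ‖-(a • (s • (x - u)))‖ := IsUltrametricDist.norm_add_le_max _ _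
    _ = ‖a • (s • (x - u)) + y‖ := by
      rw [norm_neg]
      exact max_eq_left hA

theorem orth : S_ORTH := by
  intro F _ _ V _ _ _ U _ r
  induction r with
  | zero =>
    intro c ϖ h0 h1 hc
    exact ⟨fun i => i.elim0, fun i => i.elim0, fun i => i.elim0, fun i => i.elim0,
      fun a u hu i => i.elim0⟩
  | succ r ih =>
    intro c ϖ h0 h1 hc
    have hc' : ∀ a : Fin r → F, ∑ i, a i • c i.castSucc ∈ U → a = 0 := by
      intro a ha
      have h2 := hc (Fin.snoc a 0) (by
        rw [Fin.sum_univ_castSucc]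
        simp only [Fin.snoc_castSucc, Fin.snoc_last, zero_smul, add_zero]
        exact ha)
      funext i
      have h3 := congrFun h2 i.castSucc
      rw [Fin.snoc_castSucc] at h3
      exact h3
    obtain ⟨w, hw1, hw2, hw3, hw4⟩ := ih (fun i => c i.castSucc) ϖ h0 h1 hc'
    have hle : Submodule.span F (Set.range fun i : Fin r => c i.castSucc) ≤
        Submodule.span F (Set.range c) := by
      apply Submodule.span_mono
      rintro _ ⟨i, rfl⟩
      exact ⟨_, rfl⟩
    haveI : FiniteDimensional F (Submodule.span F (Set.range w)) :=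
      FiniteDimensional.span_of_finite F (Set.finite_range w)
    haveI : FiniteDimensional F (Submodule.span F (Set.range w) ⊔ U : Submodule F V) :=
      Submodule.finiteDimensional_sup _ _
    have hsub : (Submodule.span F (Set.range w) ⊔ U : Submodule F V) ≤
        Submodule.span F (Set.range fun i : Fin r => c i.castSucc) ⊔ U := by
      refine sup_le ?_ le_sup_right
      rw [Submodule.span_le]
      rintro _ ⟨i, rfl⟩
      exact hw1 i
    have hx : c (Fin.last r) ∉ (Submodule.span F (Set.range w) ⊔ U : Submodule F V) := by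
      intro h
      obtain ⟨y, hy, z, hz, hyz⟩ := Submodule.mem_sup.1 (hsub h)
      obtain ⟨b, hb⟩ := (Submodule.mem_span_range_iff_exists_fun F).1 hy
      have h2 := hc (Fin.snoc b (-1)) (by
        rw [Fin.sum_univ_castSucc]
        simp only [Fin.snoc_castSucc, Fin.snoc_last]
        rw [hb, ← hyz]
        have h3 : y + (-1 : F) • (y + z) = -z := by
          rw [neg_smul, one_smul]
          abel
        rw [h3]
        exact U.neg_mem hz)
      have h3 := congrFun h2 (Fin.last r)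
      rw [Fin.snoc_last] at h3
      simp at h3
    obtain ⟨s, u, hs, hu, hs1, hs2, hs3⟩ := step _ _ hx ϖ h0 h1
    have hleft : (Submodule.span F (Set.range fun i : Fin r => c i.castSucc) ⊔ U : Submodule F V) ≤
        Submodule.span F (Set.range c) ⊔ U := sup_le_sup_right hle U
    let w' : Fin (r + 1) → V := Fin.snoc w (s • (c (Fin.last r) - u))
    have hw'c : ∀ i : Fin r, w' i.castSucc = w i := fun i => Fin.snoc_castSucc _ _ _
    have hw'l : w' (Fin.last r) = s • (c (Fin.last r) - u) := Fin.snoc_last _ _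
    have hle' : (Submodule.span F (Set.range w) ⊔ U : Submodule F V) ≤
        Submodule.span F (Set.range w') ⊔ U := by
      refine sup_le_sup_right ?_ U
      apply Submodule.span_mono
      rintro _ ⟨i, rfl⟩
      exact ⟨i.castSucc, hw'c i⟩
    refine ⟨w', ?_, ?_, ?_, ?_⟩
    · intro i
      refine Fin.lastCases ?_ (fun i => ?_) i
      · rw [hw'l]
        apply Submodule.smul_mem
        apply Submodule.sub_mem
        · exact Submodule.mem_sup_left (Submodule.subset_span ⟨_, rfl⟩)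
        · exact hleft (hsub hu)
      · rw [hw'c]
        exact hleft (hw1 i)
    · intro i
      refine Fin.lastCases ?_ (fun i => ?_) i
      · have h2 : c (Fin.last r) = s⁻¹ • w' (Fin.last r) + u := by
          rw [hw'l, smul_smul, inv_mul_cancel₀ hs, one_smul]
          abel
        rw [h2]
        apply Submodule.add_mem
        · exact Submodule.smul_mem _ _ (Submodule.mem_sup_left (Submodule.subset_span ⟨_, rfl⟩))
        · exact hle' hu
      · exact hle' (hw2 i)
    · intro i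
      refine Fin.lastCases ?_ (fun i => ?_) i
      · rw [hw'l]
        exact ⟨hs1, hs2⟩
      · rw [hw'c]
        exact hw3 i
    · intro a v hv i
      have h2 : ∑ j, a j • w' j + v = a (Fin.last r) • (s • (c (Fin.last r) - u)) +
          (∑ j : Fin r, a j.castSucc • w j + v) := by
        rw [Fin.sum_univ_castSucc, hw'l]
        simp only [hw'c]
        abel
      have h3 : ∑ j : Fin r, a j.castSucc • w j + v ∈
          (Submodule.span F (Set.range w) ⊔ U : Submodule F V) := by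
        apply Submodule.add_mem
        · apply Submodule.sum_mem
          intro j _
          exact Submodule.smul_mem _ _ (Submodule.mem_sup_left (Submodule.subset_span ⟨_, rfl⟩))
        · exact Submodule.mem_sup_right hv
      have h4 := hs3 (a (Fin.last r)) _ h3
      rw [h2]
      refine Fin.lastCases ?_ (fun i => ?_) i
      · rw [hw'l]
        exact h4.1
      · rw [hw'c]
        exact (hw4 (fun j => a j.castSucc) v hv i).trans h4.2

end Pool.Agent.H122.SM
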